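import Pool.Agent.Lib.MP_097655_pr.Assemble

set_option autoImplicit false

open MeasureTheory ProbabilityTheory Set
open scoped NNReal ENNReal

namespace Pool.Agent.Results.MP_097655_pr.SpanDiffuse

/-- The span set on `[0, 1]` of a path `f` indexed by `[0, ∞)`: all differences `t - s` with
`0 ≤ s ≤ t ≤ 1` and `f t = f s`. -/
def spanSet (f : ℝ≥0 → ℝ) : Set ℝ :=
  {x : ℝ | ∃ s t : ℝ≥0, s ≤ t ∧ t ≤ 1 ∧ f t = f s ∧ x = (t : ℝ) - s}

/-- `S₁`: the Lebesgue measure of the span set. -/
noncomputable def S1 (f : ℝ≥0 → ℝ) : ℝ := (volume (spanSet f)).toReal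

/-- `T₁`: the infimum of the positive numbers that do not belong to the span set. -/
noncomputable def T1 (f : ℝ≥0 → ℝ) : ℝ := sInf {x : ℝ | 0 < x ∧ x ∉ spanSet f}

/-- `R`: the supremum of `q - p` over all `0 ≤ p < q ≤ 1` with `f p = f q` and `f u ≠ f p` for all
`u` strictly between `p` and `q` (complete excursions from all levels). -/
noncomputable def R (f : ℝ≥0 → ℝ) : ℝ :=
  sSup {l : ℝ | ∃ p q : ℝ≥0, p < q ∧ q ≤ 1 ∧ f p = f q ∧
    (∀ u : ℝ≥0, p < u → u < q → f u ≠ f p) ∧ l = (q : ℝ) - p}

/-- For every standard linear Brownian motion `B`, each of the three random variables `S₁`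
(Lebesgue measure of the span set), `T₁` (first positive time missing from the span set) and `R`
(length of the longest complete excursion from all levels up to time one) is a random variable
whose distribution has no atoms. -/
theorem result {Ω : Type*} [MeasurableSpace Ω] {P : Measure Ω} {B : ℝ≥0 → Ω → ℝ}
    (hB : IsBrownianReal B P) :
    (AEMeasurable (fun ω => S1 (fun t => B t ω)) P ∧
      ∀ c : ℝ, P {ω | S1 (fun t => B t ω) = c} = 0) ∧
    (AEMeasurable (fun ω => T1 (fun t => B t ω)) P ∧
      ∀ c : ℝ, P {ω | T1 (fun t => B t ω) = c} = 0) ∧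
    (AEMeasurable (fun ω => R (fun t => B t ω)) P ∧
      ∀ c : ℝ, P {ω | R (fun t => B t ω) = c} = 0) := by
  open Pool.Agent.Lib.MP_097655_pr in
  refine ⟨?_, ?_, ?_⟩
  · refine transfer hB (G := fun w : Path => (vS w 1).toReal)
      (measurable_vS' 1).ennreal_toReal (fun w => ?_) (fun hμ c => measure_S_eq hμ c)
    rw [S1, spanSet, span_eq, vS]
  · refine transfer hB (G := fun w : Path => spT w 1) measurable_spT (fun w => ?_)
      (fun hμ c => measure_spT_eq hμ c)
    rw [T1, spanSet, span_eq, spT]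
  · refine transfer hB (G := fun w : Path => spR w 1) measurable_spR (fun w => ?_)
      (fun hμ c => measure_spR_eq hμ c)
    rw [R, exc_eq, spR]

end Pool.Agent.Results.MP_097655_pr.SpanDiffuse
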